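import Pool.Agent.Helper69.UW.Defs
import Pool.Agent.Helper49.UG.MGY

/-!
# UW: block Z4 (`mGY`), from M5 and R8
-/

set_option autoImplicit false
open MeasureTheory Set Filter Topology Metric
open Pool.Agent.Helper57.Zeta Pool.Agent.Helper57.LH Pool.Agent.Helper57.ED Pool.Agent.Helper54.LG
open Pool.Agent.Helper69.UG (pt NX XX NR NM WW near far zeta_an Mo_diff)
open Pool.Agent.Helper69.UW
open Pool.Agent.Helper49.UG (M2 geo_bd geo_sum pt_re)

namespace Pool.Agent.Helper3.UW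

/-- statement of M5 -/
def FmS (δ : ℝ) : Prop := ∃ C c0 T0 : ℝ, 0 < C ∧ ∀ T c m v : ℝ, T0 ≤ T → Adm c0 T c m →
    |v| = vv δ c m →
    ∀ τ u y : ℝ, |τ| ≤ 2 * T → |u| ≤ 2 * T → 1 ≤ y → y ≤ Real.log T / 4 →
    Integrable (fun t => wt δ T c m v τ t * ‖FF T (PR δ T c m) (pt T y (t + u)) - 1‖ ^ 2) ∧
    ∫ t, wt δ T c m v τ t * ‖FF T (PR δ T c m) (pt T y (t + u)) - 1‖ ^ 2 ≤
      C * Real.exp (C * √m - y / 16) * VV δ T c m v

/-- statement of R8 -/
def WmassS (δ : ℝ) : Prop := ∃ c0 T0 : ℝ, ∀ T c m v : ℝ, T0 ≤ T → Adm c0 T c m → |v| = vv δ c m →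
    ∀ τ : ℝ, Integrable (wt δ T c m v τ) ∧ |(∫ t, wt δ T c m v τ t) - VV δ T c m v| ≤ VV δ T c m v / T

lemma FF_an (T : ℝ) (Q : Finset ℕ) {s : ℂ} (hs : s ≠ 1) : AnalyticAt ℂ (FF T Q) s :=
  (zeta_an hs).mul ((Mo_diff _ _).analyticAt s)

lemma wt_cont {δ T c m v τ : ℝ} (hT : 0 < T) : Continuous (wt δ T c m v τ) := by
  have hW : 0 < WW T := Real.rpow_pos_of_pos hT _
  unfold wt
  apply Continuous.mul
  · unfold PW
    have hpi := Real.pi_pos
    apply Continuous.div continuous_const (by fun_prop)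
    intro t
    positivity
  · apply Continuous.pow
    apply Continuous.norm
    unfold RR
    refine continuous_finsetSum _ fun n hn => ?_
    apply continuous_const.mul
    apply Continuous.const_cpow (by fun_prop)
    left
    have : 1 ≤ n := (Finset.mem_Icc.mp hn).1
    have : n ≠ 0 := by omega
    exact_mod_cast this

lemma wt_nonneg {δ T c m v τ : ℝ} (hT : 0 < T) (t : ℝ) : 0 ≤ wt δ T c m v τ t :=
  mul_nonneg (PW_pos (Real.rpow_pos_of_pos hT _) _).le (sq_nonneg _)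

lemma one_le_VV {δ T c m v : ℝ} (hT : 1 ≤ T) : 1 ≤ VV δ T c m v := by
  have h1 : 1 ≤ NR T := by
    unfold NR
    apply Nat.le_floor
    rw [Nat.cast_one]
    exact Real.one_le_rpow hT (by norm_num)
  have h2 : rr δ T c m v 1 = 1 := by
    unfold rr
    rw [if_pos]
    · simp
    · simp
  unfold VV
  calc (1:ℝ) = rr δ T c m v 1 ^ 2 / (1 : ℕ) := by rw [h2]; norm_num
    _ ≤ _ := Finset.single_le_sum (f := fun n : ℕ => rr δ T c m v n ^ 2 / (n : ℝ)) (fun n _ => by positivity)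
        (Finset.mem_Icc.2 ⟨le_rfl, h1⟩)

lemma one_M2 {δ T c m v τ : ℝ} (hT : 1 ≤ T) (h : Integrable (wt δ T c m v τ) ∧ |(∫ t, wt δ T c m v τ t) - VV δ T c m v| ≤ VV δ T c m v / T) :
    M2 (wt δ T c m v τ) (fun _ => 1) √(2 * VV δ T c m v) := by
  have hV := one_le_VV (δ := δ) (c := c) (m := m) (v := v) hT
  refine ⟨continuous_const, fun _ => zero_le_one, ?_, ?_⟩
  · simpa using h.1
  · rw [Real.sq_sqrt (by linarith)]
    have h1 := (abs_le.mp h.2).2
    have h2 : VV δ T c m v / T ≤ VV δ T c m v := div_le_self (by linarith) hT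
    simp only [one_pow, mul_one]
    linarith

/-- the amplitude -/
noncomputable def amp (δ C T c m v y : ℝ) : ℝ := √(C * Real.exp (C * √m) * VV δ T c m v) * Real.exp (-(y / 32))

lemma amp_sq {δ C T c m v y : ℝ} (hC : 0 < C) (hT : 1 ≤ T) :
    amp δ C T c m v y ^ 2 = C * Real.exp (C * √m - y / 16) * VV δ T c m v := by
  have hV := one_le_VV (δ := δ) (c := c) (m := m) (v := v) hT
  unfold amp
  rw [mul_pow, Real.sq_sqrt (by positivity), ← Real.exp_nat_mul]
  have e : Real.exp (C * √m - y / 16) = Real.exp (C * √m) * Real.exp ((2 : ℕ) * (-(y / 32))) := by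
    rw [← Real.exp_add]
    congr 1
    push_cast
    ring
  rw [e]
  ring

lemma amp_pos {δ C T c m v : ℝ} (y : ℝ) (hC : 0 < C) (hT : 1 ≤ T) : 0 < amp δ C T c m v y := by
  have hV := one_le_VV (δ := δ) (c := c) (m := m) (v := v) hT
  unfold amp
  positivity

lemma amp_anti {δ C T c m v y y' : ℝ} (h : y ≤ y') : amp δ C T c m v y' ≤ amp δ C T c m v y := by
  unfold amp
  apply mul_le_mul_of_nonneg_left _ (Real.sqrt_nonneg _)
  rw [Real.exp_le_exp]
  linarith

/-- M5 as a second moment -/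
lemma D_M2 {δ C T c m v τ u y : ℝ} (hC : 0 < C) (hT : 3 ≤ T) (hy : y ≤ Real.log T / 4)
    (h : Integrable (fun t => wt δ T c m v τ t * ‖FF T (PR δ T c m) (pt T y (t + u)) - 1‖ ^ 2) ∧
    ∫ t, wt δ T c m v τ t * ‖FF T (PR δ T c m) (pt T y (t + u)) - 1‖ ^ 2 ≤ C * Real.exp (C * √m - y / 16) * VV δ T c m v) :
    M2 (wt δ T c m v τ) (fun t => ‖FF T (PR δ T c m) (pt T y (t + u)) - 1‖) (amp δ C T c m v y) := by
  have hL : 0 < Real.log T := Real.log_pos (by linarith)
  refine ⟨?_, fun t => norm_nonneg _, h.1, ?_⟩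
  · apply Continuous.norm
    apply Continuous.sub _ continuous_const
    rw [continuous_iff_continuousAt]
    intro t
    have hne : pt T y (t + u) ≠ 1 := by
      intro h1
      have h2 := congrArg Complex.re h1
      rw [pt_re, Complex.one_re] at h2
      have h3 : y / Real.log T ≤ 1 / 4 := by
        rw [div_le_iff₀ hL]
        linarith
      linarith
    have h4 : Continuous (fun t : ℝ => pt T y (t + u)) := by
      unfold pt
      fun_prop
    exact ContinuousAt.comp (f := fun t : ℝ => pt T y (t + u)) (FF_an T (PR δ T c m) hne).continuousAt h4.continuousAt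
  · rw [amp_sq hC (by linarith)]
    exact h.2

/-- circle means -/
lemma circ_M2 {δ C T c m v τ u y : ℝ} (hC : 0 < C) (hT : 3 ≤ T) (hu : |u| ≤ T) (hy : 2 ≤ y) (k : ℕ)
    (hk : 8 * 2 ^ k * y ≤ Real.log T / 4)
    (h : ∀ u y : ℝ, |u| ≤ 2 * T → 1 ≤ y → y ≤ Real.log T / 4 →
      Integrable (fun t => wt δ T c m v τ t * ‖FF T (PR δ T c m) (pt T y (t + u)) - 1‖ ^ 2) ∧
      ∫ t, wt δ T c m v τ t * ‖FF T (PR δ T c m) (pt T y (t + u)) - 1‖ ^ 2 ≤ C * Real.exp (C * √m - y / 16) * VV δ T c m v) :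
    M2 (wt δ T c m v τ) (fun t => circ T (PR δ T c m) y k (t + u)) (amp δ C T c m v (y / 2)) := by
  have hL : 0 < Real.log T := Real.log_pos (by linarith)
  have hpow : (1:ℝ) ≤ 2 ^ k := one_le_pow₀ (by norm_num)
  obtain ⟨a, ha⟩ : ∃ a : ℝ, a = 4 * 2 ^ k := ⟨_, rfl⟩
  have ha4 : 4 ≤ a := by rw [ha]; linarith
  have hay : 2 * a * y ≤ Real.log T / 4 := by
    rw [ha]
    linarith
  have key : ∀ φ t : ℝ, pt T (a * y) (t + u) + (((a - 1 / 2) * y / Real.log T : ℝ) : ℂ) * Complex.exp (φ * Complex.I) =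
      pt T (a * y + (a - 1 / 2) * y * Real.cos φ) (t + (u + (a - 1 / 2) * y / Real.log T * Real.sin φ)) := by
    intro φ t
    unfold pt
    rw [Complex.exp_mul_I, ← Complex.ofReal_cos, ← Complex.ofReal_sin]
    apply Complex.ext
    · simp
      ring
    · simp
      ring
  have hbd : ∀ φ : ℝ, y / 2 ≤ a * y + (a - 1 / 2) * y * Real.cos φ ∧ a * y + (a - 1 / 2) * y * Real.cos φ ≤ Real.log T / 4 ∧
      |u + (a - 1 / 2) * y / Real.log T * Real.sin φ| ≤ 2 * T := by
    intro φ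
    have h1 := Real.neg_one_le_cos φ
    have h2 := Real.cos_le_one φ
    have h3 : 0 ≤ (a - 1 / 2) * y := mul_nonneg (by linarith) (by linarith)
    refine ⟨by nlinarith, by nlinarith, ?_⟩
    have h4 : |(a - 1 / 2) * y / Real.log T * Real.sin φ| ≤ 1 := by
      rw [abs_mul]
      have h5 : |Real.sin φ| ≤ 1 := Real.abs_sin_le_one φ
      have h6 : |(a - 1 / 2) * y / Real.log T| ≤ 1 := by
        rw [abs_of_nonneg (by positivity), div_le_one hL]
        nlinarith
      calc |(a - 1 / 2) * y / Real.log T| * |Real.sin φ| ≤ 1 * 1 := mul_le_mul h6 h5 (abs_nonneg _) zero_le_one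
        _ = 1 := one_mul 1
    calc |u + (a - 1 / 2) * y / Real.log T * Real.sin φ| ≤ |u| + |(a - 1 / 2) * y / Real.log T * Real.sin φ| := abs_add_le _ _
      _ ≤ T + 1 := add_le_add hu h4
      _ ≤ 2 * T := by linarith
  have hM : ∀ φ : ℝ, M2 (wt δ T c m v τ) (fun t => ‖FF T (PR δ T c m) (pt T (a * y) (t + u) +
      (((a - 1 / 2) * y / Real.log T : ℝ) : ℂ) * Complex.exp (φ * Complex.I)) - 1‖) (amp δ C T c m v (y / 2)) := by
    intro φ
    obtain ⟨h1, h2, h3⟩ := hbd φ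
    have h4 := D_M2 hC hT h2 (h _ _ h3 (by linarith) h2)
    have h5 := h4.mono (amp_pos _ hC (by linarith)).le (amp_anti h1)
    simp only [key]
    exact h5
  have hcont : Continuous (fun p : ℝ × ℝ => ‖FF T (PR δ T c m) (pt T (a * y) (p.2 + u) +
      (((a - 1 / 2) * y / Real.log T : ℝ) : ℂ) * Complex.exp (p.1 * Complex.I)) - 1‖) := by
    apply Continuous.norm
    apply Continuous.sub _ continuous_const
    rw [continuous_iff_continuousAt]
    intro p
    have hne : pt T (a * y) (p.2 + u) + (((a - 1 / 2) * y / Real.log T : ℝ) : ℂ) * Complex.exp (p.1 * Complex.I) ≠ 1 := by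
      rw [key]
      intro h1
      have h2 := congrArg Complex.re h1
      rw [pt_re, Complex.one_re] at h2
      have h3 : (a * y + (a - 1 / 2) * y * Real.cos p.1) / Real.log T ≤ 1 / 4 := by
        rw [div_le_iff₀ hL]
        have := (hbd p.1).2.1
        linarith
      linarith
    have h4 : Continuous (fun p : ℝ × ℝ => pt T (a * y) (p.2 + u) +
        (((a - 1 / 2) * y / Real.log T : ℝ) : ℂ) * Complex.exp (p.1 * Complex.I)) := by
      unfold pt
      fun_prop
    exact ContinuousAt.comp (f := fun p : ℝ × ℝ => pt T (a * y) (p.2 + u) +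
        (((a - 1 / 2) * y / Real.log T : ℝ) : ℂ) * Complex.exp (p.1 * Complex.I)) (FF_an T (PR δ T c m) hne).continuousAt h4.continuousAt
  have hT0 : 0 < T := by linarith
  have hA0 : 0 ≤ amp δ C T c m v (y / 2) := (amp_pos _ hC (by linarith)).le
  have hfin := M2.circ (w := wt δ T c m v τ) (h := fun φ t => ‖FF T (PR δ T c m) (pt T (a * y) (t + u) +
      (((a - 1 / 2) * y / Real.log T : ℝ) : ℂ) * Complex.exp (φ * Complex.I)) - 1‖) (wt_cont hT0) (wt_nonneg hT0) hcont hA0 hM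
  have e : (fun t => circ T (PR δ T c m) y k (t + u)) = fun t => (2 * Real.pi)⁻¹ * ∫ φ in (0:ℝ)..(2 * Real.pi),
      ‖FF T (PR δ T c m) (pt T (a * y) (t + u) + (((a - 1 / 2) * y / Real.log T : ℝ) : ℂ) * Complex.exp (φ * Complex.I)) - 1‖ := by
    funext t
    unfold circ
    rw [ha]
  rw [e]
  exact hfin

/-- Z4 -/
theorem mGY_of {δ : ℝ} (_ : 0 < δ) (_ : δ ≤ 1 / 32) (hfm : FmS δ) (hwm : WmassS δ) :
    ∃ C c0 T0 : ℝ, 0 < C ∧ ∀ T c m v : ℝ, T0 ≤ T → Adm c0 T c m → |v| = vv δ c m →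
    ∀ τ u y : ℝ, |τ| ≤ 2 * T → |u| ≤ T → 2 ≤ y → ∀ K : ℕ, 1 ≤ K → 4 * 2 ^ K * y ≤ Real.log T / 4 →
    Integrable (fun t => wt δ T c m v τ t * GY T (PR δ T c m) y K (t + u)) ∧
    ∫ t, wt δ T c m v τ t * GY T (PR δ T c m) y K (t + u) ≤ C * Real.exp (C * √m - y / 64) * VV δ T c m v := by
  obtain ⟨C, c1, T1, hC, h1⟩ := hfm
  obtain ⟨c2, T2, h2⟩ := hwm
  refine ⟨100 * (1 + C) + 100000 * C, max c1 c2, max (max T1 T2) 3, by positivity, ?_⟩
  intro T c m v hT hc hv τ u y hτ hu hy K hK hKy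
  have hT1 : T1 ≤ T := (le_max_left _ _).trans ((le_max_left _ _).trans hT)
  have hT2 : T2 ≤ T := (le_max_right _ _).trans ((le_max_left _ _).trans hT)
  have hT3 : 3 ≤ T := (le_max_right _ _).trans hT
  have hfm := h1 T c m v hT1 (hc.mono (le_max_left _ _)) hv τ
  have hone := one_M2 (by linarith) (h2 T c m v hT2 (hc.mono (le_max_right _ _)) hv τ)
  have hw := wt_cont (T := T) (δ := δ) (c := c) (m := m) (v := v) (τ := τ) (by linarith)
  have hw0 := wt_nonneg (T := T) (δ := δ) (c := c) (m := m) (v := v) (τ := τ) (by linarith)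
  have hV := one_le_VV (T := T) (δ := δ) (c := c) (m := m) (v := v) (by linarith)
  have hL : 0 < Real.log T := Real.log_pos (by linarith)
  -- the pieces
  have hle : ∀ k < K, 8 * 2 ^ k * y ≤ Real.log T / 4 := by
    intro k hk
    have h3 : (2:ℝ) ^ (k + 1) ≤ 2 ^ K := pow_le_pow_right₀ (by norm_num) hk
    rw [pow_succ] at h3
    nlinarith
  have hcirc : ∀ k < K, M2 (wt δ T c m v τ) (fun t => circ T (PR δ T c m) y k (t + u)) (amp δ C T c m v (y / 2)) := fun k hk =>
    circ_M2 hC hT3 hu hy k (hle k hk) (fun u y h3 h4 h5 => hfm u y hτ h3 h4 h5)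
  have hcen : ∀ k < K, M2 (wt δ T c m v τ) (fun t => cen T (PR δ T c m) y k (t + u)) (amp δ C T c m v (4 * 2 ^ k * y)) := by
    intro k hk
    have h3 := hle k hk
    have h4 : (1:ℝ) ≤ 2 ^ k := one_le_pow₀ (by norm_num)
    have h5 : 0 < (2:ℝ) ^ k * y := by positivity
    exact D_M2 hC hT3 (by linarith) (hfm u _ hτ (by linarith) (by nlinarith) (by linarith))
  have hA0 := amp_pos (δ := δ) (C := C) (T := T) (c := c) (m := m) (v := v) (y / 2) hC (by linarith)
  have hf : ∀ k < K, M2 (wt δ T c m v τ) (fun t => circ T (PR δ T c m) y k (t + u) + 2 * cen T (PR δ T c m) y k (t + u)) (3 * amp δ C T c m v (y / 2)) := by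
    intro k hk
    have h3 : M2 (wt δ T c m v τ) (fun t => 2 * cen T (PR δ T c m) y k (t + u)) (2 * amp δ C T c m v (y / 2)) := by
      apply ((hcen k hk).mono (amp_pos _ hC (by linarith)).le (amp_anti _)).smul (by norm_num)
      have h4 : (1:ℝ) ≤ 2 ^ k := one_le_pow₀ (by norm_num)
      nlinarith
    have h5 := (hcirc k hk).add hw hw0 h3 hA0 (by positivity)
    exact h5.mono (by positivity) (le_of_eq (by ring))
  obtain ⟨E, hE⟩ : ∃ E, E = C * Real.exp (C * √m) * VV δ T c m v := ⟨_, rfl⟩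
  have hE0 : 0 < E := by rw [hE]; positivity
  have hamp : ∀ z, amp δ C T c m v z = √E * Real.exp (-(z / 32)) := fun z => by rw [hE]; rfl
  have hEE : √E * √E = E := Real.mul_self_sqrt hE0.le
  obtain ⟨q, hq⟩ : ∃ q, q = Real.exp (-(y / 64)) := ⟨_, rfl⟩
  have hq0 : 0 < q := by rw [hq]; positivity
  have hampq : amp δ C T c m v (y / 2) = √E * q := by
    rw [hamp, hq]
    congr 2
    ring
  -- first term
  have t0 := (hf 0 (by omega)).mul hw hw0 hone (by positivity) (by positivity)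
  -- other terms
  have tk : ∀ k ∈ Finset.Ico 1 K, Integrable (fun t => wt δ T c m v τ t * (15 * 2 ^ k * (circ T (PR δ T c m) y k (t + u) + 2 * cen T (PR δ T c m) y k (t + u)) *
        (2 * cen T (PR δ T c m) y (k - 1) (t + u)))) ∧
      ∫ t, wt δ T c m v τ t * (15 * 2 ^ k * (circ T (PR δ T c m) y k (t + u) + 2 * cen T (PR δ T c m) y k (t + u)) * (2 * cen T (PR δ T c m) y (k - 1) (t + u))) ≤
        90 * E * q * (128 * (1 / 2) ^ k) := by
    intro k hk
    rw [Finset.mem_Ico] at hk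
    have h3 : M2 (wt δ T c m v τ) (fun t => 2 * cen T (PR δ T c m) y (k - 1) (t + u)) (2 * amp δ C T c m v (4 * 2 ^ (k - 1) * y)) :=
      (hcen (k - 1) (by omega)).smul (by norm_num)
    have hA1 := amp_pos (δ := δ) (C := C) (T := T) (c := c) (m := m) (v := v) (4 * 2 ^ (k - 1) * y) hC (by linarith)
    obtain ⟨i1, i2⟩ := (hf k hk.2).mul hw hw0 h3 (by positivity) (by positivity)
    have e : ∀ t, wt δ T c m v τ t * (15 * 2 ^ k * (circ T (PR δ T c m) y k (t + u) + 2 * cen T (PR δ T c m) y k (t + u)) * (2 * cen T (PR δ T c m) y (k - 1) (t + u))) =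
        (15 * 2 ^ k) * (wt δ T c m v τ t * ((circ T (PR δ T c m) y k (t + u) + 2 * cen T (PR δ T c m) y k (t + u)) * (2 * cen T (PR δ T c m) y (k - 1) (t + u)))) :=
      fun t => by ring
    simp_rw [e]
    refine ⟨i1.const_mul _, ?_⟩
    rw [integral_const_mul]
    have h4 : (2:ℝ) ^ k = 2 * 2 ^ (k - 1) := by
      rw [← pow_succ']
      congr 1
      omega
    have h5 : amp δ C T c m v (4 * 2 ^ (k - 1) * y) = √E * Real.exp (-(2 ^ k * y / 16)) := by
      rw [hamp, h4]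
      congr 2
      ring
    have h6 := geo_bd hy k
    calc 15 * 2 ^ k * ∫ t, wt δ T c m v τ t * ((circ T (PR δ T c m) y k (t + u) + 2 * cen T (PR δ T c m) y k (t + u)) * (2 * cen T (PR δ T c m) y (k - 1) (t + u))) ≤
        15 * 2 ^ k * (3 * amp δ C T c m v (y / 2) * (2 * amp δ C T c m v (4 * 2 ^ (k - 1) * y))) :=
          mul_le_mul_of_nonneg_left i2 (by positivity)
      _ = 90 * (√E * √E) * q * (2 ^ k * Real.exp (-(2 ^ k * y / 16))) := by
          rw [hampq, h5]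
          ring
      _ ≤ 90 * E * q * (128 * (1 / 2) ^ k) := by
          rw [hEE]
          exact mul_le_mul_of_nonneg_left h6 (by positivity)
  have e : ∀ t, wt δ T c m v τ t * GY T (PR δ T c m) y K (t + u) =
      15 * (wt δ T c m v τ t * ((circ T (PR δ T c m) y 0 (t + u) + 2 * cen T (PR δ T c m) y 0 (t + u)) * 1)) +
      ∑ k ∈ Finset.Ico 1 K, wt δ T c m v τ t * (15 * 2 ^ k * (circ T (PR δ T c m) y k (t + u) + 2 * cen T (PR δ T c m) y k (t + u)) *
        (2 * cen T (PR δ T c m) y (k - 1) (t + u))) := by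
    intro t
    unfold GY
    rw [mul_add, Finset.mul_sum]
    ring
  simp_rw [e]
  have i0 : Integrable (fun t => 15 * (wt δ T c m v τ t * ((circ T (PR δ T c m) y 0 (t + u) + 2 * cen T (PR δ T c m) y 0 (t + u)) * 1))) := t0.1.const_mul _
  have i1 : Integrable (fun t => ∑ k ∈ Finset.Ico 1 K, wt δ T c m v τ t * (15 * 2 ^ k * (circ T (PR δ T c m) y k (t + u) + 2 * cen T (PR δ T c m) y k (t + u)) *
        (2 * cen T (PR δ T c m) y (k - 1) (t + u)))) := integrable_finsetSum _ fun k hk => (tk k hk).1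
  refine ⟨i0.add i1, ?_⟩
  rw [integral_add i0 i1, integral_const_mul, integral_finsetSum _ fun k hk => (tk k hk).1]
  have s1 : ∑ k ∈ Finset.Ico 1 K, ∫ t, wt δ T c m v τ t * (15 * 2 ^ k * (circ T (PR δ T c m) y k (t + u) + 2 * cen T (PR δ T c m) y k (t + u)) *
        (2 * cen T (PR δ T c m) y (k - 1) (t + u))) ≤ 90 * E * q * 256 := by
    calc _ ≤ ∑ k ∈ Finset.Ico 1 K, 90 * E * q * (128 * (1 / 2) ^ k) := Finset.sum_le_sum fun k hk => (tk k hk).2
      _ = 90 * E * q * ∑ k ∈ Finset.Ico 1 K, (128 * (1 / 2) ^ k) := by rw [Finset.mul_sum]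
      _ ≤ _ := mul_le_mul_of_nonneg_left (geo_sum K) (by positivity)
  have s0 : ∫ t, wt δ T c m v τ t * ((circ T (PR δ T c m) y 0 (t + u) + 2 * cen T (PR δ T c m) y 0 (t + u)) * 1) ≤
      3 * (√E * q) * √(2 * VV δ T c m v) := by
    rw [← hampq]
    exact t0.2
  -- square roots
  have hexp1 : 1 ≤ Real.exp (C * √m) := Real.one_le_exp (by positivity)
  have r1 : √E * √(2 * VV δ T c m v) ≤ 2 * (1 + C) * (Real.exp (C * √m) * VV δ T c m v) := by
    rw [← Real.sqrt_mul hE0.le]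
    apply Real.sqrt_le_iff.2
    refine ⟨by positivity, ?_⟩
    have hVx : 0 < Real.exp (C * √m) * VV δ T c m v := by positivity
    have h3 : E * (2 * VV δ T c m v) = 2 * C * (Real.exp (C * √m) * VV δ T c m v) * VV δ T c m v := by rw [hE]; ring
    have h4 : VV δ T c m v ≤ Real.exp (C * √m) * VV δ T c m v := le_mul_of_one_le_left (by linarith) hexp1
    obtain ⟨Z, hZ⟩ : ∃ Z, Z = Real.exp (C * √m) * VV δ T c m v := ⟨_, rfl⟩
    rw [h3, ← hZ]
    rw [← hZ] at h4 hVx
    have h5 : 2 * C * Z * VV δ T c m v ≤ 2 * C * Z * Z := mul_le_mul_of_nonneg_left h4 (by positivity)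
    have h6 : 0 ≤ Z * Z := by positivity
    nlinarith [mul_nonneg hC.le h6, mul_nonneg (mul_nonneg hC.le hC.le) h6]
  obtain ⟨C', hC'⟩ : ∃ C', C' = 100 * (1 + C) + 100000 * C := ⟨_, rfl⟩
  have hCC : C ≤ C' := by rw [hC']; nlinarith
  have r2 : Real.exp (C * √m) * q ≤ Real.exp (C' * √m - y / 64) := by
    rw [hq, ← Real.exp_add, Real.exp_le_exp]
    have := mul_le_mul_of_nonneg_right hCC (Real.sqrt_nonneg m)
    linarith
  rw [← hC']
  have r3 : 15 * (3 * (√E * q) * √(2 * VV δ T c m v)) ≤ 90 * (1 + C) * (Real.exp (C * √m) * q * VV δ T c m v) := by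
    have h3 : 15 * (3 * (√E * q) * √(2 * VV δ T c m v)) = 45 * q * (√E * √(2 * VV δ T c m v)) := by ring
    rw [h3]
    have h4 := mul_le_mul_of_nonneg_left r1 (show 0 ≤ 45 * q by positivity)
    calc 45 * q * (√E * √(2 * VV δ T c m v)) ≤ 45 * q * (2 * (1 + C) * (Real.exp (C * √m) * VV δ T c m v)) := h4
      _ = _ := by ring
  have r4 : 90 * E * q * 256 = 23040 * C * (Real.exp (C * √m) * q * VV δ T c m v) := by rw [hE]; ring
  have r5 : 0 ≤ Real.exp (C * √m) * q * VV δ T c m v := by positivity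
  have r6 : Real.exp (C * √m) * q * VV δ T c m v ≤ Real.exp (C' * √m - y / 64) * VV δ T c m v :=
    mul_le_mul_of_nonneg_right r2 (by linarith)
  have hC'0 : 0 ≤ C' := by rw [hC']; positivity
  calc _ ≤ 90 * (1 + C) * (Real.exp (C * √m) * q * VV δ T c m v) + 23040 * C * (Real.exp (C * √m) * q * VV δ T c m v) := by
        have h3 := mul_le_mul_of_nonneg_left s0 (show (0:ℝ) ≤ 15 by norm_num)
        linarith [h3, r3, s1, r4]
    _ ≤ C' * (Real.exp (C * √m) * q * VV δ T c m v) := by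
        rw [← add_mul]
        apply mul_le_mul_of_nonneg_right _ r5
        rw [hC']
        nlinarith
    _ ≤ C' * (Real.exp (C' * √m - y / 64) * VV δ T c m v) := mul_le_mul_of_nonneg_left r6 hC'0
    _ = _ := by ring

end Pool.Agent.Helper3.UW
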